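import Pool.Agent.K4H99.AC.Main
import Pool.Agent.K9h99.AC.Data

/-! Kernel verification of the properties of the packed heights. -/

set_option autoImplicit false

open MeasureTheory Set

namespace Pool.Agent.K9h99.AC

open Pool.Agent.K4H99.AC (sm chk exists_step)

theorem packed_lt : packed < 2 ^ (72 * 65536) := by decide +kernel

theorem packed_sm : sm 72 16 packed = 68375879256 := by decide +kernel

theorem packed_chk : chk 72 53601333721155564 17 (packed * packed) = true := by decide +kernel

/-- a step function on `[-1/4, 1/4]` whose autoconvolution is small compared to its mass -/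
theorem exists_fun : ∃ f : ℝ → ℝ, (∀ x, 0 ≤ f x) ∧ MemLp f 2 volume ∧
    ∫ x in Icc (-(1 / 4) : ℝ) (1 / 4), f x = (68375879256 : ℕ) / (2 * (65536 : ℕ)) ∧
      ∀ t, ∫ y, f y * f (t - y) ≤ (53601333721155564 : ℕ) / (2 * (65536 : ℕ)) :=
  exists_step (b := 72) (n := 65536) (X := packed) (S := 68375879256) (C := 53601333721155564)
    (k := 17) (l := 16) (by norm_num) packed_lt (by norm_num) packed_sm (by norm_num)
    (by norm_num) packed_chk

end Pool.Agent.K9h99.AC
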