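import Mathlib

/-! Rescaling a function on `[-1/4, 1/4]` to a density on `[0, 1]`. -/

set_option autoImplicit false

open MeasureTheory Set

namespace Pool.Agent.K9h99.AC

/-- the rescaled function on `[0, 1]` -/
noncomputable def unitF (f : ℝ → ℝ) (M : ℝ) (x : ℝ) : ℝ :=
  (1 / (2 * M)) * (Icc (-(1 / 4) : ℝ) (1 / 4)).indicator f ((x - 1 / 2) / 2)

theorem unitF_nonneg {f : ℝ → ℝ} (h0 : ∀ x, 0 ≤ f x) {M : ℝ} (hM : 0 < M) (x : ℝ) :
    0 ≤ unitF f M x := by
  unfold unitF
  have : 0 ≤ (Icc (-(1 / 4) : ℝ) (1 / 4)).indicator f ((x - 1 / 2) / 2) :=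
    indicator_nonneg (fun y _ => h0 y) _
  positivity

theorem unitF_zero {f : ℝ → ℝ} {M : ℝ} {x : ℝ} (hx : x ∉ Icc (0 : ℝ) 1) : unitF f M x = 0 := by
  unfold unitF
  rw [indicator_of_notMem, mul_zero]
  intro h
  apply hx
  rw [mem_Icc] at h ⊢
  constructor <;> linarith [h.1, h.2]

theorem ind_integrable {f : ℝ → ℝ} (hf : MemLp f 2 volume) :
    Integrable ((Icc (-(1 / 4) : ℝ) (1 / 4)).indicator f) := by
  rw [integrable_indicator_iff measurableSet_Icc]
  have : IsFiniteMeasure (volume.restrict (Icc (-(1 / 4) : ℝ) (1 / 4))) :=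
    ⟨by rw [Measure.restrict_apply_univ]; exact measure_Icc_lt_top⟩
  exact (hf.restrict _).integrable (by norm_num)

theorem unitF_integrable {f : ℝ → ℝ} (hf : MemLp f 2 volume) (M : ℝ) :
    Integrable (unitF f M) := by
  unfold unitF
  apply Integrable.const_mul
  have h1 := ind_integrable hf
  have h2 := (h1.comp_div (R := 2) (by norm_num)).comp_sub_right (1 / 2)
  exact h2

theorem unitF_integral {f : ℝ → ℝ} {M : ℝ} (hM : 0 < M)
    (hm : ∫ x in Icc (-(1 / 4) : ℝ) (1 / 4), f x = M) : ∫ x, unitF f M x = 1 := by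
  unfold unitF
  rw [integral_const_mul]
  have e1 : ∫ x : ℝ, (Icc (-(1 / 4) : ℝ) (1 / 4)).indicator f ((x - 1 / 2) / 2) =
      ∫ x : ℝ, (Icc (-(1 / 4) : ℝ) (1 / 4)).indicator f (x / 2) :=
    integral_sub_right_eq_self (fun x => (Icc (-(1 / 4) : ℝ) (1 / 4)).indicator f (x / 2)) (1 / 2)
  rw [e1, Measure.integral_comp_div, integral_indicator measurableSet_Icc, hm, smul_eq_mul,
    abs_of_pos (by norm_num : (0 : ℝ) < 2)]
  field_simp

theorem unitF_memLp {f : ℝ → ℝ} (hf : MemLp f 2 volume) (M : ℝ) :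
    MemLp (unitF f M) 2 volume := by
  have h0 : MemLp ((Icc (-(1 / 4) : ℝ) (1 / 4)).indicator f) 2 volume :=
    hf.indicator measurableSet_Icc
  rw [memLp_two_iff_integrable_sq (unitF_integrable hf M).aestronglyMeasurable]
  have h1 : Integrable (fun x => (Icc (-(1 / 4) : ℝ) (1 / 4)).indicator f x ^ 2) :=
    h0.integrable_sq
  have h2 := ((h1.comp_div (R := 2) (by norm_num)).comp_sub_right (1 / 2)).const_mul
    ((1 / (2 * M)) ^ 2)
  refine h2.congr (Filter.Eventually.of_forall fun x => ?_)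
  simp only [unitF]
  ring

theorem conv_int {f : ℝ → ℝ} (hf : MemLp f 2 volume) (t : ℝ) :
    Integrable (fun y => f y * f (t - y)) := by
  have hm : MeasurePreserving (fun y : ℝ => t - y) volume volume :=
    Measure.measurePreserving_sub_left volume t
  have hft : MemLp (fun y => f (t - y)) 2 volume := hf.comp_measurePreserving hm
  exact hf.integrable_mul hft

theorem unitF_conv {f : ℝ → ℝ} (h0 : ∀ x, 0 ≤ f x) (hf : MemLp f 2 volume) {M K : ℝ}
    (hM : 0 < M) (hK : ∀ t, ∫ y, f y * f (t - y) ≤ K) (x : ℝ) :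
    ∫ t, unitF f M t * unitF f M (x - t) ≤ K / (2 * M ^ 2) := by
  set g := (Icc (-(1 / 4) : ℝ) (1 / 4)).indicator f with hg
  have hg0 : ∀ y, 0 ≤ g y := fun y => indicator_nonneg (fun y _ => h0 y) _
  have hgf : ∀ y, g y ≤ f y := by
    intro y
    exact indicator_le_self' (fun _ _ => h0 _) y
  have hgm : MemLp g 2 volume := hf.indicator measurableSet_Icc
  have hgK : ∀ t, ∫ y, g y * g (t - y) ≤ K := by
    intro t
    refine le_trans (integral_mono (conv_int hgm t) (conv_int hf t) fun y => ?_) (hK t)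
    exact mul_le_mul (hgf _) (hgf _) (hg0 _) (h0 _)
  have e1 : ∫ t, unitF f M t * unitF f M (x - t) =
      (1 / (2 * M)) ^ 2 * ∫ t : ℝ, g ((t - 1 / 2) / 2) * g ((x - t - 1 / 2) / 2) := by
    rw [← integral_const_mul]
    congr 1
    funext t
    unfold unitF
    rw [← hg]
    ring
  have e2 : ∫ t : ℝ, g ((t - 1 / 2) / 2) * g ((x - t - 1 / 2) / 2) =
      ∫ t : ℝ, g (t / 2) * g ((x - 1) / 2 - t / 2) := by
    rw [← integral_sub_right_eq_self (fun t : ℝ => g (t / 2) * g ((x - 1) / 2 - t / 2)) (1 / 2)]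
    congr 1
    funext t
    congr 2
    ring
  rw [e1, e2, Measure.integral_comp_div (fun t : ℝ => g t * g ((x - 1) / 2 - t)),
    abs_of_pos (by norm_num : (0 : ℝ) < 2), smul_eq_mul]
  have h := hgK ((x - 1) / 2)
  have : (1 / (2 * M)) ^ 2 * (2 * K) = K / (2 * M ^ 2) := by
    field_simp
  rw [← this]
  gcongr

/-- normalisation of a function on `[-1/4, 1/4]` -/
theorem normalised {f : ℝ → ℝ} (h0 : ∀ x, 0 ≤ f x) (hf : MemLp f 2 volume) {M K : ℝ}
    (hM : 0 < M) (hm : ∫ x in Icc (-(1 / 4) : ℝ) (1 / 4), f x = M)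
    (hK : ∀ t, ∫ y, f y * f (t - y) ≤ K) :
    ∃ g : ℝ → ℝ, (∀ x, 0 ≤ g x) ∧ MemLp g 2 volume ∧
      (∀ x, x ∉ Icc (-(1 / 4) : ℝ) (1 / 4) → g x = 0) ∧ ∫ x, g x = 1 ∧
      ∀ t, ∫ y, g y * g (t - y) ≤ K / M ^ 2 := by
  set g := (Icc (-(1 / 4) : ℝ) (1 / 4)).indicator f with hg
  have hg0 : ∀ y, 0 ≤ g y := fun y => indicator_nonneg (fun y _ => h0 y) _
  have hgf : ∀ y, g y ≤ f y := fun y => indicator_le_self' (fun _ _ => h0 _) y
  have hgm : MemLp g 2 volume := hf.indicator measurableSet_Icc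
  refine ⟨fun x => (1 / M) * g x, fun x => by have := hg0 x; positivity, hgm.const_mul _, ?_, ?_,
    ?_⟩
  · intro x hx
    simp only [hg]
    rw [indicator_of_notMem hx, mul_zero]
  · rw [integral_const_mul, integral_indicator measurableSet_Icc, hm]
    field_simp
  · intro t
    have e : ∫ y, (1 / M) * g y * ((1 / M) * g (t - y)) =
        (1 / M) ^ 2 * ∫ y, g y * g (t - y) := by
      rw [← integral_const_mul]
      congr 1
      funext y
      ring
    have h : ∫ y, g y * g (t - y) ≤ K := by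
      refine le_trans (integral_mono (conv_int hgm t) (conv_int hf t) fun y => ?_) (hK t)
      exact mul_le_mul (hgf _) (hgf _) (hg0 _) (h0 _)
    simp only
    rw [e, div_pow, one_pow, one_div, inv_mul_le_iff₀ (by positivity), mul_div_cancel₀ _ (by positivity)]
    exact h

end Pool.Agent.K9h99.AC
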